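import Pool.Agent.Helper99.MM.Good2
import Pool.Agent.Helper60.TJ.H3

set_option autoImplicit false

/-!
# Good pairs have positive probability
-/

namespace Pool.Agent.Helper99.MM

open MeasureTheory ProbabilityTheory Pool.Agent.Helper60.TJ Pool.Agent.Helper61.MM
open Pool.Agent.Helper99.TJ Pool.Agent.Helper99.MS Pool.Agent.Helper5.MM
open scoped symmDiff ENNReal

variable {lam : Measure ℝ} {κ : Kernel WT Rs} {R : Measure Om}

/-! ### tightness of the defects -/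

theorem exists_join (x x' : Vx) : ∃ D : Finset Ed, par (ind D) = vx (dl x) (dl x') :=
  H3x.exists_join x x'

/-- the defects are tight -/
theorem dft_tight_of (hl : Wgt lam) (hR : IsR lam κ R) (hone : ∀ᵐ p ∂(QQ R), One p)
    (hnear : ∀ ε : ℝ, 0 < ε → ∃ (M : ℝ) (r : ℕ), ∀ x : Vx,
      QQ R {p | ¬ Nr M r x p} ≤ ENNReal.ofReal ε)
    (hbar : ∀ D : Finset Ed, ∀ᵐ z ∂(R), z ∈ Df 0 1 g0 → z ∈ Df 0 1 (tg g0 D)) {ε : ℝ}
    (hε : 0 < ε) :
    ∃ C : ℝ, 0 ≤ C ∧ ∀ v v' : Vx, R {z | z ∈ Df 0 1 g0 ∧ OnW (wl (pr 0 1 g0 z)) v ∧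
      OnW (wl (pr 0 1 g0 z)) v' ∧ ¬ Dft C g0 v v' z} ≤ ENNReal.ofReal ε := by
  obtain ⟨C, hC, h⟩ := defect hl hR hone hnear (fun x x' => by
    obtain ⟨D, hD⟩ := exists_join x x'
    rw [← tg_of_par hD]
    exact hbar D) hε
  refine ⟨C, hC, fun v v' => ?_⟩
  obtain ⟨D₀, hD₀⟩ := exists_join v v'
  refine le_trans (measure_mono_ae ?_) (h v v' D₀ hD₀)
  filter_upwards [hR.ok] with z hz hmem
  obtain ⟨m1, _, _, m4⟩ := hmem
  refine ⟨m1, ?_⟩
  by_contra hcon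
  apply m4
  intro D X hD hX
  have hcon' : -C ≤ hh (rp z 0) g0 D₀ + hh (rp z 1) g0 D₀ := not_lt.1 hcon
  have e0 : hh (rp z 0) g0 D₀ = hh (rp z 0) g0 D :=
    (hz 0).hh_congr g0 (isCyc_symmDiff_of_eq (by rw [hD₀, hD]))
  have e1 : hh (rp z 1) g0 D₀ = hh (rp z 1) g0 D :=
    (hz 1).hh_congr g0 (isCyc_symmDiff_of_eq (by rw [hD₀, hD]))
  have f0 := (hz 0).le g0 D X (by rw [hX.2, hD])
  have f1 := (hz 1).le g0 D X (by rw [hX.2, hD])
  have f2 : en (ww g0 z.1) (uu (rp z 1) g0) X = -en (ww g0 z.1) (uu (rp z 0) g0) X :=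
    en_wall hX.1
  rw [f2] at f1
  rw [e0, e1] at hcon'
  constructor <;> linarith

/-! ### the density of the wall -/

/-- two different replicas with `y` on the wall -/
def Ay (y : Vx) : Set Om := {z | z ∈ Df 0 1 g0 ∧ OnW (wl (pr 0 1 g0 z)) y}

theorem ms_Ay (y : Vx) : MeasurableSet (Ay y) := (measurableSet_Df 0 1 g0).inter (ms_on y)

theorem QQ_apply {S : Set XX} (hS : MeasurableSet S) :
    QQ R S = R {z | z ∈ Df 0 1 g0 ∧ pr 0 1 g0 z ∈ S} := by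
  unfold QQ
  rw [Measure.map_apply (meas_pr 0 1 g0) hS, Measure.restrict_apply ((meas_pr 0 1 g0) hS)]
  congr 1
  ext z
  exact and_comm

theorem R_Ay (hW : IsW lam (QQ R)) (y : Vx) : R (Ay y) = QQ R {p | OnW (wl p) 0} := by
  have h1 : R (Ay y) = QQ R {p | OnW (wl p) y} :=
    (QQ_apply (measurable_wl (measurableSet_OnW y))).symm
  rw [h1]
  have h2 := (hW.inv y).measure_preimage (measurable_wl (measurableSet_OnW 0)).nullMeasurableSet
  have h3 : shX y ⁻¹' (wl ⁻¹' {W : Ed → Bool | OnW W 0}) = {p : XX | OnW (wl p) y} := by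
    ext p
    show OnW (wl (shX y p)) 0 ↔ OnW (wl p) y
    rw [wl_shX, OnW_sh, zero_add]
  rw [h3] at h2
  exact h2

theorem theta_pos (hW : IsW lam (QQ R)) (hone : ∀ᵐ p ∂(QQ R), One p)
    (hp : R (Df 0 1 g0) ≠ 0) : QQ R {p | OnW (wl p) 0} ≠ 0 := by
  intro h0
  apply hp
  have h1 : ∀ v : Vx, QQ R {p | OnW (wl p) v} = 0 := by
    intro v
    have h2 : R (Ay v) = QQ R {p | OnW (wl p) v} :=
      (QQ_apply (measurable_wl (measurableSet_OnW v))).symm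
    rw [← h2, R_Ay hW v, h0]
  have h3 : QQ R Set.univ = 0 := by
    have h4 : QQ R (⋃ v : Vx, {p | OnW (wl p) v}) = 0 := measure_iUnion_null h1
    refine le_antisymm (le_trans (measure_mono_ae ?_) h4.le) zero_le
    filter_upwards [hone] with p hp' _
    obtain ⟨v, hv⟩ := hp'.2.1
    exact Set.mem_iUnion.2 ⟨v, hv⟩
  rw [QQ_apply MeasurableSet.univ] at h3
  refine measure_mono_null (fun z hz => ?_) h3
  exact ⟨hz, Set.mem_univ _⟩

/-! ### points without partners -/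

/-- no partner with larger height -/
def Bp (n : ℕ) (C : ℝ) (y y' : Vx) : Set Om :=
  {z | z ∈ Df 0 1 g0 ∧ OnW (wl (pr 0 1 g0 z)) y ∧ OnW (wl (pr 0 1 g0 z)) y' ∧
    Dft C g0 y y' z ∧ ¬ Hi n C y y' z}

/-- no partner with smaller height -/
def Bm (n : ℕ) (C : ℝ) (y y' : Vx) : Set Om :=
  {z | z ∈ Df 0 1 g0 ∧ OnW (wl (pr 0 1 g0 z)) y ∧ OnW (wl (pr 0 1 g0 z)) y' ∧
    Dft C g0 y y' z ∧ ¬ Lo n C y y' z}

theorem ms_Bp (n : ℕ) (C : ℝ) (y y' : Vx) : MeasurableSet (Bp n C y y') :=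
  (measurableSet_Df 0 1 g0).inter ((ms_on y).inter ((ms_on y').inter
    ((ms_dft C y y').inter (ms_hi n C y y').compl)))

theorem ms_Bm (n : ℕ) (C : ℝ) (y y' : Vx) : MeasurableSet (Bm n C y y') :=
  (measurableSet_Df 0 1 g0).inter ((ms_on y).inter ((ms_on y').inter
    ((ms_dft C y y').inter (ms_lo n C y y').compl)))

theorem ae_one (hl : Wgt lam) (hR : IsR lam κ R) {P : XX → Prop}
    (h : ∀ᵐ p ∂(QQ R), P p) : ∀ᵐ z ∂(R), z ∈ Df 0 1 g0 → P (pr 0 1 g0 z) := by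
  rw [ae_iff]
  refine le_antisymm (le_trans (measure_mono fun z hz => ?_)
    ((restrict_le_QQ hl hR g0 {p | ¬ P p}).trans (ae_iff.1 h).le)) zero_le
  simp only [Set.mem_ofPred_eq, Classical.not_imp] at hz
  exact hz

theorem sum_Bp (hl : Wgt lam) (hR : IsR lam κ R) (hone : ∀ᵐ p ∂(QQ R), One p)
    (hac : ∀ᵐ p ∂(QQ R), Ac (wl p)) {n L : ℕ} {C ε δ : ℝ} (hε : 0 < ε) (hδ : 0 < δ)
    (hb : QQ R {p | ∃ G : Finset Vx, G ⊆ box L ∧ HG n C G p ∧ ε * (box L).card ≤ G.card}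
      ≤ ENNReal.ofReal δ) {y' : Vx} {S : Finset Vx} (hS : S ⊆ box L)
    (hfar : ∀ y ∈ S, y' - y ∉ box n) :
    ∑ y ∈ S, R.real (Bp n C y y') ≤ (ε + δ) * (box L).card := by
  have := hR.prob
  have hL : (0:ℝ) < (box L).card := by
    rw [Nat.cast_pos, Finset.card_pos]
    exact ⟨0, by simp [box]⟩
  refine flat_sum (fun y => ms_Bp n C y y') hε hδ hS
    ((restrict_le_QQ hl hR g0 _).trans hb) ?_
  filter_upwards [hR.ok, ae_one hl hR hone, ae_one hl hR hac] with z h1 h2 h3 G hGS hG hcard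
  have hne : G.Nonempty := by
    rw [← Finset.card_pos]
    have : (0:ℝ) < G.card := lt_of_lt_of_le (by positivity) hcard
    exact_mod_cast this
  obtain ⟨y₀, hy₀⟩ := hne
  have hD : z ∈ Df 0 1 g0 := (hG y₀ hy₀).1
  refine ⟨hD, G, hGS.trans hS, ?_, hcard⟩
  exact hg_hi h1 (h2 hD) (h3 hD)
    (fun y hy => ⟨(hG y hy).2.1, (hG y hy).2.2.1, hfar y (hGS hy)⟩)
    (fun y hy => ⟨(hG y hy).2.2.2.1, (hG y hy).2.2.2.2⟩)

theorem sum_Bm (hl : Wgt lam) (hR : IsR lam κ R) (hone : ∀ᵐ p ∂(QQ R), One p)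
    (hac : ∀ᵐ p ∂(QQ R), Ac (wl p)) {n L : ℕ} {C ε δ : ℝ} (hε : 0 < ε) (hδ : 0 < δ)
    (hb : QQ R {p | ∃ G : Finset Vx, G ⊆ box L ∧ HG n C G p ∧ ε * (box L).card ≤ G.card}
      ≤ ENNReal.ofReal δ) {y' : Vx} {S : Finset Vx} (hS : S ⊆ box L)
    (hfar : ∀ y ∈ S, y' - y ∉ box n) :
    ∑ y ∈ S, R.real (Bm n C y y') ≤ (ε + δ) * (box L).card := by
  have := hR.prob
  have hL : (0:ℝ) < (box L).card := by
    rw [Nat.cast_pos, Finset.card_pos]
    exact ⟨0, by simp [box]⟩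
  refine flat_sum (fun y => ms_Bm n C y y') hε hδ hS
    ((restrict_le_QQ hl hR g0 _).trans hb) ?_
  filter_upwards [hR.ok, ae_one hl hR hone, ae_one hl hR hac] with z h1 h2 h3 G hGS hG hcard
  have hne : G.Nonempty := by
    rw [← Finset.card_pos]
    have : (0:ℝ) < G.card := lt_of_lt_of_le (by positivity) hcard
    exact_mod_cast this
  obtain ⟨y₀, hy₀⟩ := hne
  have hD : z ∈ Df 0 1 g0 := (hG y₀ hy₀).1
  refine ⟨hD, G, hGS.trans hS, ?_, hcard⟩
  exact hg_lo h1 (h2 hD) (h3 hD)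
    (fun y hy => ⟨(hG y hy).2.1, (hG y hy).2.2.1, hfar y (hGS hy)⟩)
    (fun y hy => ⟨(hG y hy).2.2.2.1, (hG y hy).2.2.2.2⟩)

/-! ### good pairs -/

/-- large defect -/
def Nd (C : ℝ) (y y' : Vx) : Set Om :=
  {z | z ∈ Df 0 1 g0 ∧ OnW (wl (pr 0 1 g0 z)) y ∧ OnW (wl (pr 0 1 g0 z)) y' ∧ ¬ Dft C g0 y y' z}

theorem dft_symm {C : ℝ} {y y' : Vx} {z : Om} (h : Dft C g0 y y' z) : Dft C g0 y' y z := by
  intro D X hD hX
  exact h D X (by rw [hD, vx_comm]) ⟨hX.1, by rw [hX.2, vx_comm]⟩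

theorem cover (n : ℕ) (C : ℝ) (y y' : Vx) : Ay y ∩ Ay y' ⊆ GG n C y y' ∪ (Nd C y y' ∪
    ((Bp n C y y' ∪ Bm n C y y') ∪ (Bp n C y' y ∪ Bm n C y' y))) := by
  rintro z ⟨⟨h1, h2⟩, ⟨_, h3⟩⟩
  by_cases hd : Dft C g0 y y' z
  · by_cases a1 : Hi n C y y' z
    · by_cases a2 : Lo n C y y' z
      · by_cases a3 : Hi n C y' y z
        · by_cases a4 : Lo n C y' y z
          · exact Or.inl ⟨h1, h2, h3, hd, ⟨a1, a2⟩, ⟨a3, a4⟩⟩
          · exact Or.inr (Or.inr (Or.inr (Or.inr ⟨h1, h3, h2, dft_symm hd, a4⟩)))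
        · exact Or.inr (Or.inr (Or.inr (Or.inl ⟨h1, h3, h2, dft_symm hd, a3⟩)))
      · exact Or.inr (Or.inr (Or.inl (Or.inr ⟨h1, h2, h3, hd, a2⟩)))
    · exact Or.inr (Or.inr (Or.inl (Or.inl ⟨h1, h2, h3, hd, a1⟩)))
  · exact Or.inr (Or.inl ⟨h1, h2, h3, hd⟩)

theorem neg_mem_box {v : Vx} {L : ℕ} : -v ∈ box L ↔ v ∈ box L := by
  rw [mem_box_iff, mem_box_iff, Prod.fst_neg, Prod.snd_neg, abs_neg, abs_neg]

theorem card_box_real (L : ℕ) : ((box L).card : ℝ) = (2 * L + 1) ^ 2 := by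
  rw [Pool.Agent.Helper99.TJ.card_box]; push_cast; rfl

/-- good pairs -/
theorem many_good_of (hl : Wgt lam) (hR : IsR lam κ R) (hW : IsW lam (QQ R))
    (hone : ∀ᵐ p ∂(QQ R), One p) (hac : ∀ᵐ p ∂(QQ R), Ac (wl p))
    (hdft : ∀ ε : ℝ, 0 < ε → ∃ C : ℝ, 0 ≤ C ∧ ∀ v v' : Vx, R {z | z ∈ Df 0 1 g0 ∧
      OnW (wl (pr 0 1 g0 z)) v ∧ OnW (wl (pr 0 1 g0 z)) v' ∧ ¬ Dft C g0 v v' z} ≤
        ENNReal.ofReal ε)
    (hbl : ∀ (C ε δ : ℝ), 0 < ε → 0 < δ → ∃ N : ℕ, ∀ n ≥ N, ∃ L₀ : ℕ, ∀ L ≥ L₀,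
      QQ R {p | ∃ G : Finset Vx, G ⊆ box L ∧ HG n C G p ∧ ε * (box L).card ≤ G.card}
        ≤ ENNReal.ofReal δ)
    (hp : R (Df 0 1 g0) ≠ 0) :
    ∃ c : ENNReal, 0 < c ∧ ∃ (n : ℕ) (C : ℝ), 0 ≤ C ∧ ∀ N : ℕ, ∃ y y' : Vx, y' - y ∉ box N ∧
      c ≤ R (GG n C y y') := by
  classical
  have := hR.prob
  have hfin := hW.fin
  set θ : ℝ := (QQ R {p | OnW (wl p) 0}).toReal with hθ
  have hθ0 : 0 < θ := ENNReal.toReal_pos (theta_pos hW hone hp) (measure_ne_top _ _)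
  have hAy : ∀ y, R.real (Ay y) = θ := fun y => by rw [Measure.real, R_Ay hW y]
  set ε : ℝ := θ ^ 2 / 40 with hε
  have hε0 : 0 < ε := by positivity
  obtain ⟨C, hC, hdef⟩ := hdft ε hε0
  obtain ⟨n, hn⟩ := hbl C ε ε hε0 hε0
  obtain ⟨L₀, hL₀⟩ := hn n le_rfl
  refine ⟨ENNReal.ofReal (θ ^ 2 / 4), ENNReal.ofReal_pos.2 (by positivity), n, C, hC, fun N => ?_⟩
  by_contra hcon
  push Not at hcon
  set N' : ℕ := max N n with hN'
  obtain ⟨L₁, hL₁⟩ := exists_nat_gt (2 * ((box N').card : ℝ) / θ ^ 2)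
  set L : ℕ := max L₀ L₁ with hL
  have hLb := hL₀ L (le_max_left _ _)
  set B : Finset Vx := box L with hB
  have hBpos : (0:ℝ) < B.card := by
    rw [hB, card_box_real]; positivity
  have hBL : (L₁ : ℝ) ≤ B.card := by
    rw [hB, card_box_real]
    have h1 : (L₁ : ℝ) ≤ L := by exact_mod_cast le_max_right _ _
    have h2 : (0:ℝ) ≤ L := Nat.cast_nonneg _
    nlinarith
  -- second moment
  have hsm := second_moment (P := R) B Ay ms_Ay
  rw [Finset.sum_congr rfl fun y _ => hAy y, Finset.sum_const, nsmul_eq_mul] at hsm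
  -- each pair
  have hpair : ∀ y ∈ B, ∀ y' ∈ B, R.real (Ay y ∩ Ay y') ≤
      (if y' - y ∈ box N' then 1 else 0) + (θ ^ 2 / 4 + ε) +
        (((if y' - y ∈ box N' then 0 else R.real (Bp n C y y')) +
          (if y' - y ∈ box N' then 0 else R.real (Bm n C y y'))) +
        ((if y - y' ∈ box N' then 0 else R.real (Bp n C y' y)) +
          (if y - y' ∈ box N' then 0 else R.real (Bm n C y' y)))) := by
    intro y _ y' _
    have hsym : y - y' ∈ box N' ↔ y' - y ∈ box N' := by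
      rw [← neg_sub y' y, neg_mem_box]
    have hT : 0 ≤ θ ^ 2 / 4 + ε := by positivity
    by_cases hfar : y' - y ∈ box N'
    · rw [if_pos hfar, if_pos hfar, if_pos hfar, if_pos (hsym.2 hfar), if_pos (hsym.2 hfar)]
      have : R.real (Ay y ∩ Ay y') ≤ 1 := measureReal_le_one
      linarith
    · have hfar' : y - y' ∉ box N' := fun h => hfar (hsym.1 h)
      rw [if_neg hfar, if_neg hfar, if_neg hfar, if_neg hfar', if_neg hfar']
      have hNfar : y' - y ∉ box N := fun h =>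
        hfar (Pool.Agent.Helper63.MS.box_mono (le_max_left _ _) h)
      have hGG : R.real (GG n C y y') ≤ θ ^ 2 / 4 :=
        ENNReal.toReal_le_of_le_ofReal (by positivity) (hcon y y' hNfar).le
      have hNd : R.real (Nd C y y') ≤ ε :=
        ENNReal.toReal_le_of_le_ofReal hε0.le (hdef y y')
      have h1 : R.real (Ay y ∩ Ay y') ≤ R.real (GG n C y y' ∪ (Nd C y y' ∪
          ((Bp n C y y' ∪ Bm n C y y') ∪ (Bp n C y' y ∪ Bm n C y' y)))) :=
        measureReal_mono (cover n C y y')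
      have h2 := measureReal_union_le (μ := R) (GG n C y y') (Nd C y y' ∪
          ((Bp n C y y' ∪ Bm n C y y') ∪ (Bp n C y' y ∪ Bm n C y' y)))
      have h3 := measureReal_union_le (μ := R) (Nd C y y')
          ((Bp n C y y' ∪ Bm n C y y') ∪ (Bp n C y' y ∪ Bm n C y' y))
      have h4 := measureReal_union_le (μ := R) (Bp n C y y' ∪ Bm n C y y')
        (Bp n C y' y ∪ Bm n C y' y)
      have h5 := measureReal_union_le (μ := R) (Bp n C y y') (Bm n C y y')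
      have h6 := measureReal_union_le (μ := R) (Bp n C y' y) (Bm n C y' y)
      linarith
  have hsum := Finset.sum_le_sum fun y hy => Finset.sum_le_sum fun y' hy' => hpair y hy y' hy'
  -- near pairs
  have hnearc : ∑ y ∈ B, ∑ y' ∈ B, (if y' - y ∈ box N' then (1:ℝ) else 0) ≤
      B.card * (box N').card := by
    have h1 : ∀ y ∈ B, ∑ y' ∈ B, (if y' - y ∈ box N' then (1:ℝ) else 0) ≤ (box N').card := by
      intro y _
      rw [← Finset.sum_filter, Finset.sum_const, nsmul_eq_mul, mul_one, Nat.cast_le]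
      refine Finset.card_le_card_of_injOn (fun y' => y' - y)
        (fun y' hy' => (Finset.mem_filter.1 hy').2) ?_
      intro a _ b _ hab
      exact sub_left_injective hab
    refine (Finset.sum_le_sum h1).trans ?_
    rw [Finset.sum_const, nsmul_eq_mul]
  -- flat sets
  have hflat : ∀ F : Vx → Vx → Set Om, (∀ (y' : Vx) (S : Finset Vx), S ⊆ B →
      (∀ y ∈ S, y' - y ∉ box n) → ∑ y ∈ S, R.real (F y y') ≤ (ε + ε) * B.card) →
      ∀ y' : Vx, ∑ y ∈ B, (if y' - y ∈ box N' then 0 else R.real (F y y')) ≤ 2 * ε * B.card := by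
    intro F hF y'
    have h1 : ∑ y ∈ B, (if y' - y ∈ box N' then 0 else R.real (F y y')) =
        ∑ y ∈ B.filter fun y => y' - y ∉ box N', R.real (F y y') := by
      rw [Finset.sum_filter]
      refine Finset.sum_congr rfl fun y _ => ?_
      by_cases h : y' - y ∈ box N' <;> simp [h]
    rw [h1, two_mul]
    refine hF y' _ (Finset.filter_subset _ _) fun y hy hmem => ?_
    exact (Finset.mem_filter.1 hy).2 (Pool.Agent.Helper63.MS.box_mono (le_max_right _ _) hmem)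
  have hBp : ∀ y' : Vx, ∑ y ∈ B, (if y' - y ∈ box N' then 0 else R.real (Bp n C y y')) ≤
      2 * ε * B.card := hflat _ fun y' S hS hfar => sum_Bp hl hR hone hac hε0 hε0 hLb hS hfar
  have hBm : ∀ y' : Vx, ∑ y ∈ B, (if y' - y ∈ box N' then 0 else R.real (Bm n C y y')) ≤
      2 * ε * B.card := hflat _ fun y' S hS hfar => sum_Bm hl hR hone hac hε0 hε0 hLb hS hfar
  have hconst : ∀ t : ℝ, ∑ _y ∈ B, t = B.card * t := fun t => by
    rw [Finset.sum_const, nsmul_eq_mul]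
  have s1 : ∑ y ∈ B, ∑ y' ∈ B, (if y' - y ∈ box N' then 0 else R.real (Bp n C y y')) ≤
      B.card * (2 * ε * B.card) := by
    rw [Finset.sum_comm]
    exact (Finset.sum_le_sum fun y' _ => hBp y').trans_eq (hconst _)
  have s2 : ∑ y ∈ B, ∑ y' ∈ B, (if y' - y ∈ box N' then 0 else R.real (Bm n C y y')) ≤
      B.card * (2 * ε * B.card) := by
    rw [Finset.sum_comm]
    exact (Finset.sum_le_sum fun y' _ => hBm y').trans_eq (hconst _)
  have s3 : ∑ y ∈ B, ∑ y' ∈ B, (if y - y' ∈ box N' then 0 else R.real (Bp n C y' y)) ≤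
      B.card * (2 * ε * B.card) :=
    (Finset.sum_le_sum fun y _ => hBp y).trans_eq (hconst _)
  have s4 : ∑ y ∈ B, ∑ y' ∈ B, (if y - y' ∈ box N' then 0 else R.real (Bm n C y' y)) ≤
      B.card * (2 * ε * B.card) :=
    (Finset.sum_le_sum fun y _ => hBm y).trans_eq (hconst _)
  simp only [Finset.sum_add_distrib] at hsum
  have s5 : ∑ _y ∈ B, ∑ _y' ∈ B, θ ^ 2 / 4 = B.card * (B.card * (θ ^ 2 / 4)) := by
    rw [hconst, hconst]
  have s6 : ∑ _y ∈ B, ∑ _y' ∈ B, ε = B.card * (B.card * ε) := by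
    rw [hconst, hconst]
  rw [s5, s6] at hsum
  have hfinal : (B.card * θ) ^ 2 ≤ B.card * (box N').card +
      (B.card * (B.card * (θ ^ 2 / 4)) + B.card * (B.card * ε)) + 4 * (B.card * (2 * ε * B.card)) := by
    linarith
  have h7 : 2 * ((box N').card : ℝ) < θ ^ 2 * B.card := by
    have h8 : 2 * ((box N').card : ℝ) / θ ^ 2 < B.card := hL₁.trans_le hBL
    rw [div_lt_iff₀ (by positivity)] at h8
    linarith
  have h9 : (B.card : ℝ) * (θ ^ 2 * B.card) * (21 / 40) ≤ B.card * (box N').card := by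
    rw [hε] at hfinal
    nlinarith
  have h10 : (B.card : ℝ) * (2 * (box N').card) < B.card * (θ ^ 2 * B.card) :=
    mul_lt_mul_of_pos_left h7 hBpos
  have h11 : 0 ≤ (B.card : ℝ) * (box N').card := by positivity
  linarith

end Pool.Agent.Helper99.MM
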