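import Pool.Agent.Helper61.MM.DefsC
import Pool.Agent.Helper99.MS.PosB
import Pool.Agent.Helper66.TJ.ZPath
import Pool.Agent.Helper66.TJ.Half
import Pool.Agent.Helper63.MS.ForM

set_option autoImplicit false

/-!
# Good pairs, deterministic part: points without higher partners form an almost flat set
-/

namespace Pool.Agent.Helper99.MM

open MeasureTheory Pool.Agent.Helper60.TJ Pool.Agent.Helper61.MM Pool.Agent.Helper99.TJ
open Pool.Agent.Helper99.MS Pool.Agent.Helper5.MM
open scoped symmDiff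

/-! ### the relation `Wn` is symmetric -/

theorem wn_symm {p : XX} (hdeg : Deg2 (wl p)) (hac : Ac (wl p)) {n : ℕ} {y v : Vx}
    (h : Wn n p y v) : Wn n p v y := by
  obtain ⟨d, hd, m, hm, rfl⟩ := h
  have hG : GY ((shX y p, d) : YY) := gy_yz hdeg hac (z := (y, d)) hd
  have hT : GY (Tz (m : ℤ) ((shX y p, d) : YY)) := GY_Tz hG
  have h1 : (Tz (m : ℤ) ((shX y p, d) : YY)).1 = shX (y + pos (shX y p, d) m) p := by
    rw [Tz_fst hG, posz_natCast, shX_shX, add_comm]
  set t : YY := rv (Tz (m : ℤ) ((shX y p, d) : YY)) with ht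
  have htG : GY t := hT.rv
  have ht1 : t.1 = shX (y + pos (shX y p, d) m) p := h1
  have h2 : pos t m = -pos (shX y p, d) m := by
    rw [← posz_natCast t m, ht, posz_rv hT, posz_Tz hG, add_neg_cancel]
    have h3 : posz ((shX y p, d) : YY) 0 = 0 := by
      have := posz_natCast ((shX y p, d) : YY) 0
      simpa only [pos, Nat.cast_zero] using this
    rw [h3, posz_natCast, zero_sub]
  refine ⟨t.2, ?_, m, hm, ?_⟩
  · have h3 := xor_of_GY htG
    rw [ht1, wl_shX, sh_edg, zero_add] at h3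
    exact h3
  · have h4 : ((shX (y + pos (shX y p, d) m) p, t.2) : YY) = t := Prod.ext ht1.symm rfl
    rw [h4, h2]
    abel

/-! ### a short segment is inside a long one or disjoint from it -/

theorem local_const' {W Z : Ed → Bool} (hdeg : Deg2 W) {u : Vx} (hZ : par Z u = false)
    (hZW : ∀ d, W (edg u d) = false → Z (edg u d) = false) :
    (∀ d, Z (edg u d) = false) ∨ ∀ d, Z (edg u d) = W (edg u d) := by
  have h := bool_local (W (edg u 0)) (W (edg u 1)) (W (edg u 2)) (W (edg u 3))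
    (Z (edg u 0)) (Z (edg u 1)) (Z (edg u 2)) (Z (edg u 3)) (hZW 0) (hZW 1) (hZW 2) (hZW 3)
    (hdeg.1 u) hZ (by
      obtain ⟨d, hd⟩ := hdeg.2 u
      fin_cases d
      · exact Or.inl hd
      · exact Or.inr (Or.inl hd)
      · exact Or.inr (Or.inr (Or.inl hd))
      · exact Or.inr (Or.inr (Or.inr hd)))
  rcases h with ⟨h0, h1, h2, h3⟩ | ⟨h0, h1, h2, h3⟩
  · left
    intro d
    fin_cases d
    · exact h0
    · exact h1
    · exact h2
    · exact h3
  · right
    intro d
    fin_cases d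
    · exact h0
    · exact h1
    · exact h2
    · exact h3

theorem par_false_fun (u : Vx) : par (fun _ => false) u = false := rfl

theorem seg_dich {W : Ed → Bool} (hdeg : Deg2 W) (hac : Ac W) {v₁ v₂ y' : Vx} {X Y : Finset Ed}
    (hX : ∀ e ∈ X, W e = true) (hXp : par (ind X) = vx (dl v₁) (dl y'))
    (hY : ∀ e ∈ Y, W e = true) (hYp : par (ind Y) = vx (dl v₁) (dl v₂))
    (hy' : ∀ d, edg y' d ∉ Y) : (∀ e ∈ Y, e ∉ X) ∨ ∀ e ∈ Y, e ∈ X := by
  classical
  set F : Finset Ed := Y.filter fun e => e ∈ X with hF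
  have hFW : ∀ e ∈ F, W e = true := fun e he => hY e (Finset.mem_filter.1 he).1
  have hu : ∀ u, u ≠ v₁ → u ≠ v₂ → par (ind F) u = false := by
    intro u h1 h2
    by_cases ht : ∃ d, edg u d ∈ Y
    · obtain ⟨d, hd⟩ := ht
      have huy : u ≠ y' := by
        rintro rfl
        exact hy' d hd
      have hXu : par (ind X) u = false := by
        rw [hXp]; simp [vx, dl, h1, huy]
      rcases local_const' hdeg hXu (fun d' hd' => by
        by_contra hcon
        rw [Bool.not_eq_false, ind_eq_true] at hcon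
        rw [hX _ hcon] at hd'
        exact absurd hd' (by decide)) with h3 | h3
      · have h4 : par (ind F) u = par (fun _ => false) u := par_eq_of_edges fun d' => by
          by_contra hcon
          rw [Bool.not_eq_false, ind_eq_true, hF, Finset.mem_filter] at hcon
          have := h3 d'
          rw [ind_eq_true.2 hcon.2] at this
          exact absurd this (by decide)
        rw [h4]; rfl
      · have h4 : par (ind F) u = par (ind Y) u := par_eq_of_edges fun d' => by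
          unfold ind
          congr 1
          rw [hF, Finset.mem_filter, eq_iff_iff]
          constructor
          · exact fun h => h.1
          · intro h
            refine ⟨h, ?_⟩
            rw [← ind_eq_true, h3 d']
            exact hY _ h
        rw [h4, hYp]
        simp [vx, dl, h1, h2]
    · have h4 : par (ind F) u = par (fun _ => false) u := par_eq_of_edges fun d' => by
        by_contra hcon
        rw [Bool.not_eq_false, ind_eq_true, hF, Finset.mem_filter] at hcon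
        exact ht ⟨d', hcon.1⟩
      rw [h4]; rfl
  have hcase : IsCyc F ∨ par (ind F) = par (ind Y) := by
    by_cases h12 : v₁ = v₂
    · left
      intro u
      by_contra hcon
      rw [Bool.not_eq_false] at hcon
      have hu1 : u = v₁ := by
        by_contra h
        rw [hu u h (h12 ▸ h)] at hcon
        exact absurd hcon (by decide)
      apply E2.handshake F v₁
      funext u'
      by_cases h : u' = v₁
      · rw [h, ← hu1, hcon]; simp [dl]
      · rw [hu u' h (h12 ▸ h)]; simp [dl, h]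
    · cases ha : par (ind F) v₁ <;> cases hb : par (ind F) v₂
      · left
        intro u
        by_cases h1 : u = v₁
        · rw [h1]; exact ha
        by_cases h2 : u = v₂
        · rw [h2]; exact hb
        exact hu u h1 h2
      · exfalso
        apply E2.handshake F v₂
        funext u
        by_cases h2 : u = v₂
        · rw [h2, hb]; simp [dl]
        by_cases h1 : u = v₁
        · rw [h1, ha]; simp [dl, h12]
        rw [hu u h1 h2]; simp [dl, h2]
      · exfalso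
        apply E2.handshake F v₁
        funext u
        by_cases h1 : u = v₁
        · rw [h1, ha]; simp [dl]
        by_cases h2 : u = v₂
        · rw [h2, hb]; simp [dl, Ne.symm h12]
        rw [hu u h1 h2]; simp [dl, h1]
      · right
        funext u
        rw [hYp]
        by_cases h1 : u = v₁
        · rw [h1, ha]; simp [vx, dl, h12]
        by_cases h2 : u = v₂
        · rw [h2, hb]; simp [vx, dl, Ne.symm h12]
        rw [hu u h1 h2]; simp [vx, dl, h1, h2]
  rcases hcase with h | h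
  · left
    have h1 := hac F h hFW
    intro e he heX
    have : e ∈ F := Finset.mem_filter.2 ⟨he, heX⟩
    rw [h1] at this
    exact Finset.notMem_empty e this
  · right
    have h1 : F ∆ Y = ∅ := hac _ (isCyc_symmDiff_of_eq h) fun e he => by
      rcases Finset.mem_symmDiff.1 he with ⟨h2, _⟩ | ⟨h2, _⟩
      · exact hFW e h2
      · exact hY e h2
    have h2 : F = Y := symmDiff_eq_bot.1 h1
    intro e he
    rw [← h2] at he
    exact (Finset.mem_filter.1 he).2

theorem seg_unique {W : Ed → Bool} (hac : Ac W) {X X' : Finset Ed} (hX : ∀ e ∈ X, W e = true)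
    (hX' : ∀ e ∈ X', W e = true) (h : par (ind X) = par (ind X')) : X = X' := by
  have h1 : X ∆ X' = ∅ := hac _ (isCyc_symmDiff_of_eq h) fun e he => by
    rcases Finset.mem_symmDiff.1 he with ⟨h2, _⟩ | ⟨h2, _⟩
    · exact hX e h2
    · exact hX' e h2
  exact symmDiff_eq_bot.1 h1

/-- the edges of a walk stay near its first point -/
theorem not_touch {p : XX} {y y' : Vx} {d : Dir} {m n : ℕ} (hm : m < n)
    (hfar : y' - y ∉ box n) (d' : Dir) : edg y' d' ∉ sg' (wl p) m (y, d) := by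
  intro h
  unfold sg' at h
  obtain ⟨i, hi, he⟩ := Finset.mem_image.1 h
  rw [Finset.mem_range] at hi
  have h0 : ∀ j, ((tau (wl p))^[j] (y, d)).1 = y + pos (yz p (y, d)) j := fun j =>
    tau_pos p (y, d) j
  have h1 : (tau (wl p))^[i + 1] (y, d) = tau (wl p) ((tau (wl p))^[i] (y, d)) :=
    Function.iterate_succ_apply' _ _ _
  have key : ∀ j ≤ n, y' ≠ y + pos (yz p (y, d)) j := by
    intro j hj heq
    apply hfar
    rw [heq, add_sub_cancel_left]
    exact Pool.Agent.Helper63.MS.box_mono hj (pos_mem_box _ j)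
  rcases g_edg_eq he with ⟨h2, _⟩ | ⟨h2, _⟩
  · apply key i (by omega)
    rw [← h0 i]
    exact h2.symm
  · apply key (i + 1) (by omega)
    rw [← h0 (i + 1), h1]
    exact h2

theorem abs_vn_eq {p : XX} (hpos : ∀ e, 0 < p.1 e) (hdeg : Deg2 (wl p)) (hac : Ac (wl p))
    {v₁ y' : Vx} {d : Dir} {m n : ℕ} (hd : wl p (edg v₁ d) = true) (hm : m < n)
    (hfar : y' - v₁ ∉ box n) {X₁ X₂ : Finset Ed} (h1 : IsSeg p v₁ y' X₁)
    (h2 : IsSeg p (v₁ + pos (shX v₁ p, d) m) y' X₂) :
    |Vn m (shX v₁ p, d)| = |en p.1 p.2.1 X₂ - en p.1 p.2.1 X₁| := by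
  set Y : Finset Ed := sg' (wl p) m (v₁, d) with hYd
  have hY : ∀ e ∈ Y, wl p e = true := by
    intro e he
    rw [hYd] at he
    unfold sg' at he
    obtain ⟨i, _, rfl⟩ := Finset.mem_image.1 he
    exact on_iter hdeg (z := (v₁, d)) hd i
  have hYp : par (ind Y) = vx (dl v₁) (dl (v₁ + pos (shX v₁ p, d) m)) :=
    par_sg' hdeg hac (z := (v₁, d)) hd m
  have hen : en p.1 p.2.1 Y = Vn m (shX v₁ p, d) := by
    have := en_sg' hdeg hac (z := (v₁, d)) hd m
    rw [wt_of_pos hpos] at this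
    exact this
  have hX2 : X₂ = X₁ ∆ Y := by
    refine seg_unique hac h2.1 (fun e he => ?_) ?_
    · rcases Finset.mem_symmDiff.1 he with ⟨h3, _⟩ | ⟨h3, _⟩
      · exact h1.1 e h3
      · exact hY e h3
    · rw [par_ind_symmDiff, h1.2, h2.2, hYp]
      funext u
      unfold vx
      cases dl v₁ u <;> cases dl y' u <;> cases dl (v₁ + pos (shX v₁ p, d) m) u <;> rfl
  have h3 := en_symmDiff p.1 p.2.1 X₁ Y
  rw [← hX2] at h3
  have h4 : en p.1 p.2.1 X₂ - en p.1 p.2.1 X₁ = en p.1 (bx p.2.1 (ind X₁)) Y := by linarith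
  rw [h4]
  rcases seg_dich hdeg hac h1.1 h1.2 hY hYp (not_touch hm hfar) with h5 | h5
  · have h6 : en p.1 (bx p.2.1 (ind X₁)) Y = en p.1 p.2.1 Y := en_congr fun e he => by
      have : ind X₁ e = false := by
        by_contra hcon
        rw [Bool.not_eq_false, ind_eq_true] at hcon
        exact h5 e he hcon
      unfold bx
      rw [this, Bool.xor_false]
    rw [h6, hen]
  · have h6 : en p.1 (bx p.2.1 (ind X₁)) Y = -en p.1 p.2.1 Y := by
      rw [← en_neg]
      refine en_congr fun e he => ?_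
      have : ind X₁ e = true := ind_eq_true.2 (h5 e he)
      unfold bx
      rw [this, Bool.xor_true]
    rw [h6, hen, abs_neg]

/-! ### points without partners -/

/-- a partner of `y'` near `y` with larger height -/
def Hi (n : ℕ) (C : ℝ) (y y' : Vx) (z : Om) : Prop :=
  ∃ v X Y, Wn n (pr 0 1 g0 z) y v ∧ Dft C g0 v y' z ∧ IsSeg (pr 0 1 g0 z) y y' X ∧
    IsSeg (pr 0 1 g0 z) v y' Y ∧
      en (ww g0 z.1) (uu (rp z 0) g0) X + C < en (ww g0 z.1) (uu (rp z 0) g0) Y

/-- a partner of `y'` near `y` with smaller height -/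
def Lo (n : ℕ) (C : ℝ) (y y' : Vx) (z : Om) : Prop :=
  ∃ v X Y, Wn n (pr 0 1 g0 z) y v ∧ Dft C g0 v y' z ∧ IsSeg (pr 0 1 g0 z) y y' X ∧
    IsSeg (pr 0 1 g0 z) v y' Y ∧
      en (ww g0 z.1) (uu (rp z 0) g0) Y + C < en (ww g0 z.1) (uu (rp z 0) g0) X

theorem hg_aux {z : Om} (hz : ∀ i, Ok z.1 (rp z i)) (hone : One (pr 0 1 g0 z))
    (hac : Ac (wl (pr 0 1 g0 z))) {n : ℕ} {C : ℝ} {y' : Vx} {G : Finset Vx}
    (hon : ∀ y ∈ G, OnW (wl (pr 0 1 g0 z)) y ∧ OnW (wl (pr 0 1 g0 z)) y' ∧ y' - y ∉ box n)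
    (hG : ∀ y ∈ G, ∀ v ∈ G, Wn n (pr 0 1 g0 z) y v → ∀ X Y, IsSeg (pr 0 1 g0 z) y y' X →
      IsSeg (pr 0 1 g0 z) v y' Y →
      |en (ww g0 z.1) (uu (rp z 0) g0) Y - en (ww g0 z.1) (uu (rp z 0) g0) X| ≤ C) :
    HG n C G (pr 0 1 g0 z) := by
  intro v hv
  obtain ⟨h1, h2, h3⟩ := hon v hv
  refine ⟨h1, fun d hd m hm hmem => ?_⟩
  obtain ⟨X, hX, hXp⟩ := hone.2.2 v y' h1 h2
  obtain ⟨Y, hY, hYp⟩ := hone.2.2 _ y' (hon _ hmem).1 h2
  have h4 := abs_vn_eq (p := pr 0 1 g0 z) ((hz 0).ww_pos g0) hone.1 hac hd hm h3 ⟨hX, hXp⟩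
    ⟨hY, hYp⟩
  rw [h4]
  exact hG v hv _ hmem ⟨d, hd, m, hm, rfl⟩ X Y ⟨hX, hXp⟩ ⟨hY, hYp⟩

theorem hg_hi {z : Om} (hz : ∀ i, Ok z.1 (rp z i)) (hone : One (pr 0 1 g0 z))
    (hac : Ac (wl (pr 0 1 g0 z))) {n : ℕ} {C : ℝ} {y' : Vx} {G : Finset Vx}
    (hon : ∀ y ∈ G, OnW (wl (pr 0 1 g0 z)) y ∧ OnW (wl (pr 0 1 g0 z)) y' ∧ y' - y ∉ box n)
    (hG : ∀ y ∈ G, Dft C g0 y y' z ∧ ¬ Hi n C y y' z) : HG n C G (pr 0 1 g0 z) := by
  refine hg_aux hz hone hac hon fun y hy v hv hW X Y hX hY => ?_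
  have h1 : ¬ (en (ww g0 z.1) (uu (rp z 0) g0) X + C < en (ww g0 z.1) (uu (rp z 0) g0) Y) :=
    fun h => (hG y hy).2 ⟨v, X, Y, hW, (hG v hv).1, hX, hY, h⟩
  have h2 : ¬ (en (ww g0 z.1) (uu (rp z 0) g0) Y + C < en (ww g0 z.1) (uu (rp z 0) g0) X) :=
    fun h => (hG v hv).2 ⟨y, Y, X, wn_symm hone.1 hac hW, (hG y hy).1, hY, hX, h⟩
  rw [abs_le]
  constructor <;> linarith

theorem hg_lo {z : Om} (hz : ∀ i, Ok z.1 (rp z i)) (hone : One (pr 0 1 g0 z))
    (hac : Ac (wl (pr 0 1 g0 z))) {n : ℕ} {C : ℝ} {y' : Vx} {G : Finset Vx}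
    (hon : ∀ y ∈ G, OnW (wl (pr 0 1 g0 z)) y ∧ OnW (wl (pr 0 1 g0 z)) y' ∧ y' - y ∉ box n)
    (hG : ∀ y ∈ G, Dft C g0 y y' z ∧ ¬ Lo n C y y' z) : HG n C G (pr 0 1 g0 z) := by
  refine hg_aux hz hone hac hon fun y hy v hv hW X Y hX hY => ?_
  have h1 : ¬ (en (ww g0 z.1) (uu (rp z 0) g0) Y + C < en (ww g0 z.1) (uu (rp z 0) g0) X) :=
    fun h => (hG y hy).2 ⟨v, X, Y, hW, (hG v hv).1, hX, hY, h⟩
  have h2 : ¬ (en (ww g0 z.1) (uu (rp z 0) g0) X + C < en (ww g0 z.1) (uu (rp z 0) g0) Y) :=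
    fun h => (hG v hv).2 ⟨y, Y, X, wn_symm hone.1 hac hW, (hG y hy).1, hY, hX, h⟩
  rw [abs_le]
  constructor <;> linarith

end Pool.Agent.Helper99.MM
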