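import Pool.Agent.Helper99.MM.Good1
import Pool.Agent.Helper60.TJ.F2
import Pool.Agent.Helper60.TJ.C0

set_option autoImplicit false

/-!
# Good pairs: measurability, second moment, few points without partners
-/

namespace Pool.Agent.Helper99.MM

open MeasureTheory Pool.Agent.Helper60.TJ Pool.Agent.Helper61.MM Pool.Agent.Helper99.TJ
open Pool.Agent.Helper99.MS Pool.Agent.Helper5.MM
open scoped symmDiff ENNReal

/-! ### measurability -/

theorem ms_wl (e : Ed) : MeasurableSet {z : Om | wl (pr 0 1 g0 z) e = true} :=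
  (meas_pr 0 1 g0) (measurable_wl (measurableSet_coord e true))

theorem ms_on (v : Vx) : MeasurableSet {z : Om | OnW (wl (pr 0 1 g0 z)) v} :=
  (meas_pr 0 1 g0) (measurable_wl (measurableSet_OnW v))

theorem ms_seg (v v' : Vx) (X : Finset Ed) :
    MeasurableSet {z : Om | IsSeg (pr 0 1 g0 z) v v' X} := by
  have h1 : {z : Om | IsSeg (pr 0 1 g0 z) v v' X} =
      (⋂ e ∈ X, {z : Om | wl (pr 0 1 g0 z) e = true}) ∩
        {_z : Om | par (ind X) = vx (dl v) (dl v')} := by
    ext z; simp [IsSeg]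
  rw [h1]
  exact (Finset.measurableSet_biInter _ fun e _ => ms_wl e).inter (MeasurableSet.const _)

theorem mf_en (X : Finset Ed) :
    Measurable fun z : Om => en (ww g0 z.1) (uu (rp z 0) g0) X :=
  (measurable_en_prod X).comp (((meas_ww g0).comp measurable_fst).prodMk
    ((meas_uu g0).comp (meas_rp 0)))

theorem mf_hh (i : Fin 3) (D : Finset Ed) : Measurable fun z : Om => hh (rp z i) g0 D :=
  (measurable_pi_apply D).comp (measurable_fst.comp (measurable_snd.comp
    ((measurable_pi_apply g0).comp (meas_rp i))))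

theorem ms_dft (C : ℝ) (v v' : Vx) : MeasurableSet {z : Om | Dft C g0 v v' z} := by
  have h1 : {z : Om | Dft C g0 v v' z} = ⋂ D : Finset Ed, ⋂ X : Finset Ed,
      ({_z : Om | par (ind D) = vx (dl v) (dl v')}ᶜ ∪ ({z : Om | IsSeg (pr 0 1 g0 z) v v' X}ᶜ ∪
        ({z : Om | en (ww g0 z.1) (uu (rp z 0) g0) X ≤ hh (rp z 0) g0 D + C} ∩
          {z : Om | -en (ww g0 z.1) (uu (rp z 0) g0) X ≤ hh (rp z 1) g0 D + C}))) := by
    ext z
    unfold Dft
    simp only [Set.mem_ofPred_eq, Set.mem_iInter, Set.mem_union, Set.mem_compl_iff,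
      Set.mem_inter_iff]
    constructor
    · intro h D X
      by_cases h1 : par (ind D) = vx (dl v) (dl v')
      · by_cases h2 : IsSeg (pr 0 1 g0 z) v v' X
        · exact Or.inr (Or.inr (h D X h1 h2))
        · exact Or.inr (Or.inl h2)
      · exact Or.inl h1
    · intro h D X h1 h2
      rcases h D X with h3 | h3 | h3
      · exact absurd h1 h3
      · exact absurd h2 h3
      · exact h3
  rw [h1]
  refine MeasurableSet.iInter fun D => MeasurableSet.iInter fun X => ?_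
  refine (MeasurableSet.const _).compl.union ((ms_seg v v' X).compl.union (MeasurableSet.inter ?_ ?_))
  · exact measurableSet_le (mf_en X) ((mf_hh 0 D).add_const C)
  · exact measurableSet_le (mf_en X).neg ((mf_hh 1 D).add_const C)

theorem ms_wn (n : ℕ) (y v : Vx) : MeasurableSet {z : Om | Wn n (pr 0 1 g0 z) y v} := by
  have h1 : {z : Om | Wn n (pr 0 1 g0 z) y v} = ⋃ d : Dir, ({z | wl (pr 0 1 g0 z) (edg y d) = true} ∩
      ⋃ m ∈ Finset.range n, {z | v = y + pos (shX y (pr 0 1 g0 z), d) m}) := by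
    ext z
    simp [Wn]
  rw [h1]
  refine MeasurableSet.iUnion fun d => (ms_wl _).inter (Finset.measurableSet_biUnion _ fun m _ => ?_)
  have h2 : Measurable fun z : Om => pos (shX y (pr 0 1 g0 z), d) m :=
    (measurable_pos m).comp (((measurable_shX' y).comp (meas_pr 0 1 g0)).prodMk measurable_const)
  have h3 : {z : Om | v = y + pos (shX y (pr 0 1 g0 z), d) m} =
      (fun z : Om => pos (shX y (pr 0 1 g0 z), d) m) ⁻¹' {u | v = y + u} := rfl
  rw [h3]
  exact h2 (Set.to_countable _).measurableSet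

theorem ms_hi (n : ℕ) (C : ℝ) (y y' : Vx) : MeasurableSet {z : Om | Hi n C y y' z} := by
  have h1 : {z : Om | Hi n C y y' z} = ⋃ v : Vx, ⋃ X : Finset Ed, ⋃ Y : Finset Ed,
      ({z | Wn n (pr 0 1 g0 z) y v} ∩ ({z | Dft C g0 v y' z} ∩ ({z | IsSeg (pr 0 1 g0 z) y y' X} ∩
        ({z | IsSeg (pr 0 1 g0 z) v y' Y} ∩ {z | en (ww g0 z.1) (uu (rp z 0) g0) X + C <
          en (ww g0 z.1) (uu (rp z 0) g0) Y})))) := by
    ext z
    simp only [Hi, Set.mem_ofPred_eq, Set.mem_iUnion, Set.mem_inter_iff]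
  rw [h1]
  refine MeasurableSet.iUnion fun v => MeasurableSet.iUnion fun X => MeasurableSet.iUnion fun Y => ?_
  exact (ms_wn n y v).inter ((ms_dft C v y').inter ((ms_seg y y' X).inter ((ms_seg v y' Y).inter
    (measurableSet_lt ((mf_en X).add_const C) (mf_en Y)))))

theorem ms_lo (n : ℕ) (C : ℝ) (y y' : Vx) : MeasurableSet {z : Om | Lo n C y y' z} := by
  have h1 : {z : Om | Lo n C y y' z} = ⋃ v : Vx, ⋃ X : Finset Ed, ⋃ Y : Finset Ed,
      ({z | Wn n (pr 0 1 g0 z) y v} ∩ ({z | Dft C g0 v y' z} ∩ ({z | IsSeg (pr 0 1 g0 z) y y' X} ∩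
        ({z | IsSeg (pr 0 1 g0 z) v y' Y} ∩ {z | en (ww g0 z.1) (uu (rp z 0) g0) Y + C <
          en (ww g0 z.1) (uu (rp z 0) g0) X})))) := by
    ext z
    simp only [Lo, Set.mem_ofPred_eq, Set.mem_iUnion, Set.mem_inter_iff]
  rw [h1]
  refine MeasurableSet.iUnion fun v => MeasurableSet.iUnion fun X => MeasurableSet.iUnion fun Y => ?_
  exact (ms_wn n y v).inter ((ms_dft C v y').inter ((ms_seg y y' X).inter ((ms_seg v y' Y).inter
    (measurableSet_lt ((mf_en Y).add_const C) (mf_en X)))))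

/-! ### second moment -/

theorem second_moment {Ω ι : Type*} [MeasurableSpace Ω] {P : Measure Ω} [IsProbabilityMeasure P]
    (B : Finset ι) (M : ι → Set Ω) (hM : ∀ i, MeasurableSet (M i)) :
    (∑ i ∈ B, P.real (M i)) ^ 2 ≤ ∑ i ∈ B, ∑ j ∈ B, P.real (M i ∩ M j) := by
  set S : ℝ := ∑ i ∈ B, P.real (M i) with hS
  have hi : ∀ A : Set Ω, MeasurableSet A → Integrable (A.indicator (1 : Ω → ℝ)) P := fun A hA =>
    (integrable_const (1 : ℝ)).indicator hA
  have hint : ∀ A : Set Ω, MeasurableSet A → ∫ ω, A.indicator (1 : Ω → ℝ) ω ∂P = P.real A :=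
    fun A hA => integral_indicator_one hA
  have h1 : ∫ ω, ∑ i ∈ B, (M i).indicator (1 : Ω → ℝ) ω ∂P = S := by
    rw [integral_finsetSum _ fun i _ => hi _ (hM i)]
    exact Finset.sum_congr rfl fun i _ => hint _ (hM i)
  have h2 : ∀ ω, (∑ i ∈ B, (M i).indicator (1 : Ω → ℝ) ω) ^ 2 =
      ∑ i ∈ B, ∑ j ∈ B, (M i ∩ M j).indicator (1 : Ω → ℝ) ω := by
    intro ω
    rw [sq, Finset.sum_mul_sum]
    refine Finset.sum_congr rfl fun i _ => Finset.sum_congr rfl fun j _ => ?_
    by_cases a : ω ∈ M i <;> by_cases b : ω ∈ M j <;> simp [Set.indicator, a, b]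
  have h3 : ∫ ω, (∑ i ∈ B, (M i).indicator (1 : Ω → ℝ) ω) ^ 2 ∂P =
      ∑ i ∈ B, ∑ j ∈ B, P.real (M i ∩ M j) := by
    simp_rw [h2]
    rw [integral_finsetSum _ fun i _ => integrable_finsetSum _ fun j _ =>
      hi _ ((hM i).inter (hM j))]
    refine Finset.sum_congr rfl fun i _ => ?_
    rw [integral_finsetSum _ fun j _ => hi _ ((hM i).inter (hM j))]
    exact Finset.sum_congr rfl fun j _ => hint _ ((hM i).inter (hM j))
  have i1 : Integrable (fun ω => ∑ i ∈ B, (M i).indicator (1 : Ω → ℝ) ω) P :=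
    integrable_finsetSum _ fun i _ => hi _ (hM i)
  have i2 : Integrable (fun ω => (∑ i ∈ B, (M i).indicator (1 : Ω → ℝ) ω) ^ 2) P := by
    simp_rw [h2]
    exact integrable_finsetSum _ fun i _ => integrable_finsetSum _ fun j _ =>
      hi _ ((hM i).inter (hM j))
  have h4 : 0 ≤ ∫ ω, ((∑ i ∈ B, (M i).indicator (1 : Ω → ℝ) ω) - S) ^ 2 ∂P :=
    integral_nonneg fun ω => sq_nonneg _
  have h5 : ∫ ω, ((∑ i ∈ B, (M i).indicator (1 : Ω → ℝ) ω) - S) ^ 2 ∂P =
      (∑ i ∈ B, ∑ j ∈ B, P.real (M i ∩ M j)) - 2 * S * S + S ^ 2 := by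
    have h6 : ∀ ω, ((∑ i ∈ B, (M i).indicator (1 : Ω → ℝ) ω) - S) ^ 2 =
        (∑ i ∈ B, (M i).indicator (1 : Ω → ℝ) ω) ^ 2 -
          2 * S * (∑ i ∈ B, (M i).indicator (1 : Ω → ℝ) ω) + S ^ 2 := fun ω => by ring
    have e1 : ∫ ω, ((∑ i ∈ B, (M i).indicator (1 : Ω → ℝ) ω) ^ 2 -
          2 * S * (∑ i ∈ B, (M i).indicator (1 : Ω → ℝ) ω)) ∂P =
        (∑ i ∈ B, ∑ j ∈ B, P.real (M i ∩ M j)) - 2 * S * S := by
      have e2 := integral_sub i2 (i1.const_mul (2 * S))
      rw [e2, h3, integral_const_mul, h1]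
    have e3 := integral_add (i2.sub (i1.const_mul (2 * S))) (integrable_const (S ^ 2))
    have e4 : ∫ ω, ((∑ i ∈ B, (M i).indicator (1 : Ω → ℝ) ω) - S) ^ 2 ∂P =
        ∫ ω, ((∑ i ∈ B, (M i).indicator (1 : Ω → ℝ) ω) ^ 2 -
          2 * S * (∑ i ∈ B, (M i).indicator (1 : Ω → ℝ) ω) + S ^ 2) ∂P :=
      integral_congr_ae (Filter.Eventually.of_forall h6)
    have e5 : ∫ ω, ((∑ i ∈ B, (M i).indicator (1 : Ω → ℝ) ω) ^ 2 -
          2 * S * (∑ i ∈ B, (M i).indicator (1 : Ω → ℝ) ω) + S ^ 2) ∂P =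
        ∫ ω, ((∑ i ∈ B, (M i).indicator (1 : Ω → ℝ) ω) ^ 2 -
          2 * S * (∑ i ∈ B, (M i).indicator (1 : Ω → ℝ) ω)) ∂P + ∫ _, S ^ 2 ∂P := e3
    rw [e4, e5, e1]
    simp
  rw [h5] at h4
  nlinarith

/-! ### few points in flat sets -/

theorem flat_sum {R : Measure Om} [IsProbabilityMeasure R] {M : Vx → Set Om}
    (hM : ∀ y, MeasurableSet (M y)) {T : Set Om} {L : ℕ} {ε δ : ℝ} (hε : 0 < ε) (hδ : 0 < δ)
    {S : Finset Vx} (hS : S ⊆ box L) (hT : R T ≤ ENNReal.ofReal δ)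
    (hflat : ∀ᵐ z ∂(R), ∀ G ⊆ S, (∀ y ∈ G, z ∈ M y) → ε * (box L).card ≤ G.card → z ∈ T) :
    ∑ y ∈ S, R.real (M y) ≤ (ε + δ) * (box L).card := by
  classical
  set T' : Set Om := toMeasurable R T with hT'
  have hT'm : MeasurableSet T' := measurableSet_toMeasurable _ _
  have hT'R : R.real T' ≤ δ := by
    rw [Measure.real, hT', measure_toMeasurable]
    exact ENNReal.toReal_le_of_le_ofReal hδ.le hT
  have hi : ∀ A : Set Om, MeasurableSet A → Integrable (A.indicator (1 : Om → ℝ)) R := fun A hA =>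
    (integrable_const (1 : ℝ)).indicator hA
  have hint : ∀ A : Set Om, MeasurableSet A → ∫ ω, A.indicator (1 : Om → ℝ) ω ∂(R) = R.real A :=
    fun A hA => integral_indicator_one hA
  have h1 : ∫ z, ∑ y ∈ S, (M y).indicator (1 : Om → ℝ) z ∂(R) = ∑ y ∈ S, R.real (M y) := by
    rw [integral_finsetSum _ fun i _ => hi _ (hM i)]
    exact Finset.sum_congr rfl fun i _ => hint _ (hM i)
  rw [← h1]
  have h2 : ∫ z, ∑ y ∈ S, (M y).indicator (1 : Om → ℝ) z ∂(R) ≤
      ∫ z, (ε * (box L).card + (box L).card * T'.indicator (1 : Om → ℝ) z) ∂(R) := by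
    refine integral_mono_ae (integrable_finsetSum _ fun i _ => hi _ (hM i))
      ((integrable_const _).add ((hi _ hT'm).const_mul _)) ?_
    filter_upwards [hflat] with z hz
    have h3 : ∑ y ∈ S, (M y).indicator (1 : Om → ℝ) z = ((S.filter fun y => z ∈ M y).card : ℝ) := by
      rw [Finset.card_filter]
      push_cast
      refine Finset.sum_congr rfl fun y _ => ?_
      by_cases h : z ∈ M y <;> simp [Set.indicator, h]
    show ∑ y ∈ S, (M y).indicator (1 : Om → ℝ) z ≤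
      ε * (box L).card + (box L).card * T'.indicator (1 : Om → ℝ) z
    rw [h3]
    have hcard : ((S.filter fun y => z ∈ M y).card : ℝ) ≤ (box L).card := by
      exact_mod_cast Finset.card_le_card ((Finset.filter_subset _ _).trans hS)
    have hn : (0:ℝ) ≤ (box L).card := Nat.cast_nonneg _
    by_cases hzT : z ∈ T'
    · rw [Set.indicator_of_mem hzT]
      simp only [Pi.one_apply, mul_one]
      have : 0 ≤ ε * (box L).card := by positivity
      linarith
    · rw [Set.indicator_of_notMem hzT, mul_zero, add_zero]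
      by_contra hcon
      push Not at hcon
      apply hzT
      exact subset_toMeasurable R T (hz _ (Finset.filter_subset _ _)
        (fun y hy => (Finset.mem_filter.1 hy).2) hcon.le)
  refine h2.trans ?_
  have e1 : ∫ z, (ε * (box L).card + (box L).card * T'.indicator (1 : Om → ℝ) z) ∂(R) =
      ∫ _z : Om, ε * ((box L).card : ℝ) ∂(R) +
        ∫ z, ((box L).card : ℝ) * T'.indicator (1 : Om → ℝ) z ∂(R) :=
    integral_add (integrable_const _) ((hi _ hT'm).const_mul _)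
  rw [e1, integral_const_mul ((box L).card : ℝ), hint _ hT'm]
  simp only [integral_const, probReal_univ, smul_eq_mul, one_mul]
  have hn : (0:ℝ) ≤ (box L).card := Nat.cast_nonneg _
  nlinarith

end Pool.Agent.Helper99.MM
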